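import Pool.Agent.N165.LC.Asm1
import Pool.Agent.N165.LC.Hom

/-!
# MP_cc5166_ag: the normalized lengths of the local cohomology of `R/I^n` can be unbounded

`Cech.length I p` (file `Pool/Agent/N165/LC/Cech.lean`) is the length of the local cohomology module
`H^p_𝔪(R/I)` over `R = k[X_i : i ∈ ι]`, `𝔪 = (X_i)`, defined by the Čech complex.
-/

namespace Pool.Agent.Results.MP_cc5166_ag.Unbounded

open Pool.Agent.N165 Pool.Agent.N165.LC

/-- There are a polynomial ring `R` over `k = 𝔽₂` in `d = card ι` variables, a homogeneous ideal `I`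
and `i ≥ 0` such that `H^i_𝔪(R/I^n)` has finite length for all `n ≥ 1`, while
`λ(H^i_𝔪(R/I^n)) / n^d` is unbounded. -/
theorem result : ∃ (ι : Type) (_ : Fintype ι) (_ : LinearOrder ι) (i : ℕ)
    (I : Ideal (MvPolynomial ι (ZMod 2))), Cech.IsHomog I ∧
    (∀ n : ℕ, 1 ≤ n → Cech.length (I ^ n) i ≠ ⊤) ∧
    ∀ C N : ℕ, ∃ n : ℕ, N ≤ n ∧
      ((C * n ^ Fintype.card ι : ℕ) : ℕ∞) < Cech.length (I ^ n) i := by
  obtain ⟨e, he, h⟩ := main_bound 24
  have hcmp : ∀ J : Ideal (PR 24), Cech.length J 29 =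
      Module.length (PR 24) (LocalCohomology.H (V 24) (ZMod 2) (PR 24 ⧸ J) 29) :=
    fun J => Cech.lengthH_cmp (MvPolynomial.X : V 24 → PR 24) (PR 24 ⧸ J) 29
  refine ⟨V 24, inferInstance, ordV 24, 29, II 24 e, II_homog 24 e, ?_, ?_⟩
  · intro n hn
    obtain ⟨ℓ, hℓ, -⟩ := h n hn
    rw [hcmp, hℓ]
    exact ENat.natCast_ne_top ℓ
  · intro C N
    have hcard : Fintype.card (V 24) = 51 := rfl
    obtain ⟨m, hm1, hm2, hm3⟩ : ∃ m, 1 ≤ m ∧ N ≤ m ∧ C * 150 ^ 24 < m :=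
      ⟨C * 150 ^ 24 + N + 1, by omega, by omega, by omega⟩
    refine ⟨150 * m, by omega, ?_⟩
    obtain ⟨ℓ, hℓ, hb⟩ := h (150 * m) (by omega)
    have hbn : 150 * m ≤ 2 * e * (150 * m) - 1 := by
      have : 1 * (150 * m) ≤ e * (150 * m) := Nat.mul_le_mul_right _ he
      have h3 : 2 * e * (150 * m) = 2 * (e * (150 * m)) := by ring
      omega
    set b := 2 * e * (150 * m) - 1 with hbdef
    have h1 := hb (150 * m ^ 2) (by
      have h2 : (150 * m) ^ 2 ≤ b ^ 2 := Nat.pow_le_pow_left hbn 2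
      have h3 : 6 * (24 + 1) * (150 * m ^ 2) = (150 * m) ^ 2 := by ring
      omega)
    have h2 : (150 * m ^ 2) ^ (24 + 1) * (150 * m) ^ 2 ≤ ℓ :=
      le_trans (Nat.mul_le_mul_left _ (Nat.pow_le_pow_left hbn 2)) h1
    have hℓ' : Cech.length (II 24 e ^ (150 * m)) 29 = ℓ := (hcmp _).trans hℓ
    rw [hℓ', hcard, Nat.cast_lt]
    refine lt_of_lt_of_le ?_ h2
    have h4 : (150 * m ^ 2) ^ (24 + 1) * (150 * m) ^ 2 = (150 ^ 27 * m ^ 51) * m := by ring
    have h5 : C * (150 * m) ^ 51 = (150 ^ 27 * m ^ 51) * (C * 150 ^ 24) := by ring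
    rw [h4, h5]
    exact Nat.mul_lt_mul_of_pos_left hm3 (by positivity)

end Pool.Agent.Results.MP_cc5166_ag.Unbounded
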